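import Pool.Agent.Q72.DS.Fin
import Pool.Agent.Q72.DS.AlgB
import Pool.Agent.Q121.DS.RDU
import Pool.Agent.Q121.DS.ALGA
import Pool.Agent.Q121.DS.QUOT

/-!
# MP_6db049_an: derivative and difference sharing three values
-/

set_option autoImplicit false

namespace Pool.Agent.Results.MP_6db049_an.DerivativeEqualsDifference

open Filter Set Topology

/-- The difference `f (z + c) - f z`. -/
def Delta (c : ℂ) (f : ℂ → ℂ) : ℂ → ℂ := fun z => f (z + c) - f z

/-- `g` and `h` share the value `a` counting multiplicities: `g - a` and `h - a` have the same zeros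
with the same multiplicities. -/
def ShareCM (a : ℂ) (g h : ℂ → ℂ) : Prop :=
  ∀ z, 0 < meromorphicOrderAt (fun w => g w - a) z ∨ 0 < meromorphicOrderAt (fun w => h w - a) z →
    meromorphicOrderAt (fun w => g w - a) z = meromorphicOrderAt (fun w => h w - a) z

/-- `g` and `h` share infinity counting multiplicities: they have the same poles with the same
multiplicities. -/
def SharePolesCM (g h : ℂ → ℂ) : Prop :=
  ∀ z, meromorphicOrderAt g z < 0 ∨ meromorphicOrderAt h z < 0 →
    meromorphicOrderAt g z = meromorphicOrderAt h z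

/-- The hyper-order: the upper limit of `log log T(r, f) / log r`, `T(r, f)` the Nevanlinna
characteristic function. -/
noncomputable def hyperOrder (f : ℂ → ℂ) : EReal :=
  limsup (fun r : ℝ => ((Real.log (Real.log (ValueDistribution.characteristic f ⊤ r)) / Real.log r :
    ℝ) : EReal)) atTop

/-- Let `f` be a meromorphic function on `ℂ` such that `f'` and `Δ_c f` share two distinct finite values
and infinity counting multiplicities. Then `f' = Δ_c f` off a discrete set if `f` has infinite
hyper-order, and more generally if `f` is not a polynomial of degree at most one. -/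
theorem result (f : ℂ → ℂ) (hf : MeromorphicOn f univ) (c a₁ a₂ : ℂ) (hc : c ≠ 0) (ha : a₁ ≠ a₂)
    (h1 : ShareCM a₁ (deriv f) (Delta c f)) (h2 : ShareCM a₂ (deriv f) (Delta c f))
    (h3 : SharePolesCM (deriv f) (Delta c f)) :
    (hyperOrder f = ⊤ → deriv f =ᶠ[codiscrete ℂ] Delta c f) ∧
    ((¬ ∃ p q : ℂ, f =ᶠ[codiscrete ℂ] fun z => p * z + q) →
      deriv f =ᶠ[codiscrete ℂ] Delta c f) := by
  have key : (¬ ∃ p q : ℂ, f =ᶠ[codiscrete ℂ] fun z => p * z + q) →
      deriv f =ᶠ[codiscrete ℂ] Delta c f := fun hlin =>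
    Pool.Agent.Q72.DS.mero
      (Pool.Agent.Q121.DS.div_ Pool.Agent.Q72.DS.basic Pool.Agent.Q72.DS.jen)
      (Pool.Agent.Q121.DS.unit_ Pool.Agent.Q72.DS.basic Pool.Agent.Q72.DS.jen
        Pool.Agent.Q72.DS.ring)
      Pool.Agent.Q121.DS.algA Pool.Agent.Q72.DS.AlgB.main Pool.Agent.Q72.DS.AlgC.main
      Pool.Agent.Q121.DS.quot hf hc ha hlin h1 h2 h3
  refine ⟨fun h => key ?_, key⟩
  rintro ⟨p, q, hpq⟩
  exact Pool.Agent.Q38.DS.hyp f p q hpq h

end Pool.Agent.Results.MP_6db049_an.DerivativeEqualsDifference
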